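import Pool.Agent.Helper56.LD.Defs

set_option autoImplicit false

namespace Pool.Agent.Helper56.LD

open Set Filter Topology

/-! ### numbers -/

lemma tent_zero : tent 0 = 0 := by simp [tent]
lemma tent_one : tent 1 = 0 := by norm_num [tent]
lemma tent_half : tent (1/2) = 1 := by norm_num [tent]
lemma tent_nonneg {x : ℝ} (h0 : 0 ≤ x) (h1 : x ≤ 1) : 0 ≤ tent x := by
  unfold tent
  have : |2 * x - 1| ≤ 1 := abs_le.2 ⟨by linarith, by linarith⟩
  linarith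
lemma tent_le_one (x : ℝ) : tent x ≤ 1 := by
  unfold tent
  have := abs_nonneg (2 * x - 1)
  linarith
lemma tent_pos {x : ℝ} (h0 : 0 < x) (h1 : x < 1) : 0 < tent x := by
  unfold tent
  have : |2 * x - 1| < 1 := abs_lt.2 ⟨by linarith, by linarith⟩
  linarith
lemma tent_mem {x : ℝ} (h : x ∈ Icc (0 : ℝ) 1) : tent x ∈ Icc (0 : ℝ) 1 :=
  ⟨tent_nonneg h.1 h.2, tent_le_one x⟩
lemma continuous_tent : Continuous tent := by
  unfold tent
  fun_prop

lemma hgt_one (n : ℕ) : hgt n 1 = 1 / 2 ^ n := by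
  unfold hgt
  rw [pow_succ]
  field_simp
  norm_num
lemma hgt_zero (n : ℕ) : hgt n 0 = 1 / 2 ^ (n + 1) := by simp [hgt]
lemma hgt_zero_succ (n : ℕ) : hgt n 0 = hgt (n + 1) 1 := by rw [hgt_zero, hgt_one]
lemma hgt_pos {n : ℕ} {w : ℝ} (h : 0 ≤ w) : 0 < hgt n w := by unfold hgt; positivity
lemma hgt_le {n : ℕ} {w : ℝ} (h : w ≤ 1) : hgt n w ≤ 1 / 2 ^ n := by
  rw [← hgt_one]; unfold hgt; gcongr
lemma hgt_ge {n : ℕ} {w : ℝ} (h : 0 ≤ w) : 1 / 2 ^ (n + 1) ≤ hgt n w := by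
  rw [← hgt_zero]; unfold hgt; gcongr
lemma hgt_le_one {n : ℕ} {w : ℝ} (h : w ≤ 1) : hgt n w ≤ 1 :=
  (hgt_le h).trans (by
    rw [div_le_one (by positivity)]
    exact one_le_pow₀ (by norm_num))
lemma hgt_lt_of_lt {n : ℕ} {w w' : ℝ} (h : w < w') : hgt n w < hgt n w' := by
  unfold hgt; gcongr
lemma hgt_mono {n : ℕ} {w w' : ℝ} (h : w ≤ w') : hgt n w ≤ hgt n w' := by
  unfold hgt; gcongr
lemma hgt_le_iff {n : ℕ} {w w' : ℝ} : hgt n w ≤ hgt n w' ↔ w ≤ w' :=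
  ⟨fun h => by by_contra h'; push Not at h'; exact absurd h (not_le.2 (hgt_lt_of_lt h')), hgt_mono⟩
lemma hgt_lt_iff {n : ℕ} {w w' : ℝ} : hgt n w < hgt n w' ↔ w < w' := by
  rw [← not_le, ← not_le, hgt_le_iff]
/-- going to a higher level lowers the height. -/
lemma hgt_lt_of_level {n m : ℕ} {w v : ℝ} (hnm : n < m) (hw : 0 < w) (hv : v ≤ 1) :
    hgt m v < hgt n w := by
  have h1 : hgt m v ≤ 1 / 2 ^ m := hgt_le hv
  have h2 : (1 : ℝ) / 2 ^ m ≤ 1 / 2 ^ (n + 1) := by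
    apply one_div_le_one_div_of_le (by positivity)
    exact pow_le_pow_right₀ (by norm_num) hnm
  have h3 : hgt n 0 < hgt n w := hgt_lt_of_lt hw
  rw [hgt_zero] at h3
  linarith
lemma hgt_le_of_level {n m : ℕ} {w v : ℝ} (hnm : n < m) (hw : 0 ≤ w) (hv : v ≤ 1) :
    hgt m v ≤ hgt n w := by
  have h1 : hgt m v ≤ 1 / 2 ^ m := hgt_le hv
  have h2 : (1 : ℝ) / 2 ^ m ≤ 1 / 2 ^ (n + 1) := by
    apply one_div_le_one_div_of_le (by positivity)
    exact pow_le_pow_right₀ (by norm_num) hnm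
  have h3 : hgt n 0 ≤ hgt n w := hgt_mono hw
  rw [hgt_zero] at h3
  linarith
lemma level_le_of_hgt_le {n m : ℕ} {w v : ℝ} (hw : 0 < w) (hv : v ≤ 1)
    (h : hgt n w ≤ hgt m v) : m ≤ n := by
  by_contra hc
  push Not at hc
  exact absurd h (not_le.2 (hgt_lt_of_level hc hw hv))
lemma hgt_inj {n m : ℕ} {w v : ℝ} (hw : 0 < w) (hw1 : w ≤ 1) (hv : 0 < v) (hv1 : v ≤ 1)
    (h : hgt n w = hgt m v) : n = m ∧ w = v := by
  have h1 := level_le_of_hgt_le hw hv1 h.le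
  have h2 := level_le_of_hgt_le hv hw1 h.ge
  have h3 : n = m := le_antisymm h2 h1
  subst h3
  exact ⟨rfl, le_antisymm (hgt_le_iff.1 h.le) (hgt_le_iff.1 h.ge)⟩
/-- every height in `(0,1]` is `hgt n w` with `0 < w ≤ 1`. -/
lemma exists_hgt {h : ℝ} (h0 : 0 < h) (h1 : h ≤ 1) :
    ∃ (n : ℕ) (w : ℝ), 0 < w ∧ w ≤ 1 ∧ hgt n w = h := by
  have hex : ∃ n : ℕ, (1 : ℝ) / 2 ^ (n + 1) < h := by
    obtain ⟨n, hn⟩ := exists_pow_lt_of_lt_one h0 (by norm_num : (1/2 : ℝ) < 1)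
    refine ⟨n, lt_of_le_of_lt ?_ hn⟩
    rw [one_div_pow]
    apply one_div_le_one_div_of_le (by positivity)
    exact pow_le_pow_right₀ (by norm_num) (Nat.le_succ n)
  classical
  let n := Nat.find hex
  have hn : (1 : ℝ) / 2 ^ (n + 1) < h := Nat.find_spec hex
  have hn' : h ≤ 1 / 2 ^ n := by
    rcases Nat.eq_zero_or_pos n with h' | h'
    · rw [h']; simpa using h1
    · obtain ⟨m, hm⟩ : ∃ m, n = m + 1 := ⟨n - 1, by omega⟩
      have := Nat.find_min hex (m := m) (by change m < n; omega)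
      push Not at this
      rwa [← hm] at this
  refine ⟨n, h * 2 ^ (n + 1) - 1, ?_, ?_, ?_⟩
  · rw [div_lt_iff₀ (by positivity)] at hn
    linarith
  · rw [le_div_iff₀ (by positivity)] at hn'
    rw [pow_succ]
    linarith
  · unfold hgt
    field_simp
    ring

lemma wt_lt {n j : ℕ} {w : ℝ} (h : j < n) : wt n w j = 0 := by simp [wt, h]
lemma wt_eq {n : ℕ} {w : ℝ} : wt n w n = w := by simp [wt]
lemma wt_gt {n j : ℕ} {w : ℝ} (h : n < j) : wt n w j = 1 := by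
  simp [wt, not_lt.2 h.le, h.ne']
lemma wt_nonneg {n j : ℕ} {w : ℝ} (h : 0 ≤ w) : 0 ≤ wt n w j := by
  unfold wt; split_ifs <;> linarith
lemma wt_le_one {n j : ℕ} {w : ℝ} (h : w ≤ 1) : wt n w j ≤ 1 := by
  unfold wt; split_ifs <;> linarith
lemma wt_pos {n j : ℕ} {w : ℝ} (h : 0 < w) (hj : n ≤ j) : 0 < wt n w j := by
  rcases hj.lt_or_eq with h' | h'
  · rw [wt_gt h']; norm_num
  · subst h'; rw [wt_eq]; exact h
lemma wt_zero_succ (n j : ℕ) : wt n 0 j = wt (n + 1) 1 j := by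
  rcases lt_trichotomy j n with h | h | h
  · rw [wt_lt h, wt_lt (by omega)]
  · subst h; rw [wt_eq, wt_lt (by omega)]
  · rw [wt_gt h]
    rcases Nat.eq_or_lt_of_le (Nat.succ_le_of_lt h) with h' | h'
    · rw [show j = n + 1 from h'.symm, wt_eq]
    · rw [wt_gt h']

section gen

variable {L Ω : Type} [DecidableEq L] [DecidableEq Ω]

@[simp] lemma pt_fst (lt : ℕ → L → Ω) (n : ℕ) (e : ℕ → L) (w : ℝ) :
    (pt lt n e w).1 = hgt n w := rfl
@[simp] lemma pt_wt (lt : ℕ → L → Ω) (n : ℕ) (e : ℕ → L) (w : ℝ) (j : ℕ) (l : L) :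
    (pt lt n e w).2.1 j l = if e j = l then wt n w j else 0 := rfl
@[simp] lemma pt_star (lt : ℕ → L → Ω) (n : ℕ) (e : ℕ → L) (w : ℝ) (ω : Ω) :
    (pt lt n e w).2.2 ω = if 1 ≤ n ∧ lt n (e n) = ω then tent w else 0 := rfl
omit [DecidableEq L] in
@[simp] lemma cpt_fst (ω : Ω) (r : ℝ) : (cpt (L := L) ω r).1 = 0 := rfl
omit [DecidableEq L] in
@[simp] lemma cpt_wt (ω : Ω) (r : ℝ) (j : ℕ) (l : L) : (cpt (L := L) ω r).2.1 j l = 0 := rfl
omit [DecidableEq L] in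
@[simp] lemma cpt_star (ω : Ω) (r : ℝ) (ω' : Ω) :
    (cpt (L := L) ω r).2.2 ω' = if ω' = ω then r else 0 := rfl

omit [DecidableEq L] [DecidableEq Ω] in
lemma amb_ext {x y : Amb L Ω} (h1 : x.1 = y.1) (h2 : ∀ j l, x.2.1 j l = y.2.1 j l)
    (h3 : ∀ ω, x.2.2 ω = y.2.2 ω) : x = y := by
  refine Prod.ext h1 (Prod.ext ?_ (funext h3))
  funext j l
  exact h2 j l

/-- the two descriptions of a hub. -/
lemma pt_zero (lt : ℕ → L → Ω) (n : ℕ) (e : ℕ → L) : pt lt n e 0 = pt lt (n + 1) e 1 := by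
  refine amb_ext (hgt_zero_succ n) (fun j l => ?_) (fun ω => ?_)
  · simp only [pt_wt, wt_zero_succ]
  · simp [tent_zero, tent_one]

lemma pt_congr (lt : ℕ → L → Ω) {n : ℕ} {e e' : ℕ → L} {w : ℝ} (h : ∀ j, n ≤ j → e j = e' j) :
    pt lt n e w = pt lt n e' w := by
  refine amb_ext rfl (fun j l => ?_) (fun ω => ?_)
  · simp only [pt_wt]
    rcases lt_or_ge j n with hj | hj
    · simp [wt_lt hj]
    · rw [h j hj]
  · simp only [pt_star, h n le_rfl]

lemma pt_congr_zero (lt : ℕ → L → Ω) {n : ℕ} {e e' : ℕ → L} (h : ∀ j, n + 1 ≤ j → e j = e' j) :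
    pt lt n e 0 = pt lt n e' 0 := by
  rw [pt_zero, pt_zero, pt_congr lt h]

lemma pt_inj (lt : ℕ → L → Ω) {n n' : ℕ} {e e' : ℕ → L} {w w' : ℝ} (hw : 0 < w) (hw1 : w ≤ 1)
    (hw' : 0 < w') (hw1' : w' ≤ 1) (h : pt lt n e w = pt lt n' e' w') :
    n = n' ∧ w = w' ∧ ∀ j, n ≤ j → e j = e' j := by
  have h1 : hgt n w = hgt n' w' := congrArg Prod.fst h
  obtain ⟨rfl, rfl⟩ := hgt_inj hw hw1 hw' hw1' h1
  refine ⟨rfl, rfl, fun j hj => ?_⟩
  have h2 : (pt lt n e w).2.1 j (e j) = (pt lt n e' w).2.1 j (e j) := by rw [h]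
  simp only [pt_wt, if_true] at h2
  by_contra hne
  rw [if_neg (fun hc => hne hc.symm)] at h2
  have := wt_pos hw hj
  linarith

lemma cpt_mem (lt : ℕ → L → Ω) (E : Set (ℕ → L)) (ω : Ω) {r : ℝ} (hr : r ∈ Icc (0 : ℝ) 1) :
    cpt ω r ∈ MSet lt E := Or.inl ⟨ω, r, hr, rfl⟩

lemma pt_mem (lt : ℕ → L → Ω) {E : Set (ℕ → L)} (n : ℕ) {e : ℕ → L} (he : e ∈ E) {w : ℝ}
    (hw : w ∈ Icc (0 : ℝ) 1) : pt lt n e w ∈ MSet lt E := Or.inr ⟨n, e, he, w, hw, rfl⟩

/-- normal form of a point outside the core. -/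
lemma exists_rep {lt : ℕ → L → Ω} {E : Set (ℕ → L)} {x : Amb L Ω} (hx : x ∈ MSet lt E)
    (h0 : 0 < x.1) : ∃ (n : ℕ) (e : ℕ → L) (w : ℝ), e ∈ E ∧ 0 < w ∧ w ≤ 1 ∧ x = pt lt n e w := by
  rcases hx with ⟨ω, r, _, rfl⟩ | ⟨n, e, he, w, hw, rfl⟩
  · simp at h0
  · rcases hw.1.eq_or_lt with h | h
    · subst h
      exact ⟨n + 1, e, 1, he, one_pos, le_rfl, pt_zero lt n e⟩
    · exact ⟨n, e, w, he, h, hw.2, rfl⟩

lemma exists_core_rep {lt : ℕ → L → Ω} {E : Set (ℕ → L)} {x : Amb L Ω} (hx : x ∈ MSet lt E)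
    (h0 : x.1 ≤ 0) : ∃ (ω : Ω) (r : ℝ), r ∈ Icc (0 : ℝ) 1 ∧ x = cpt ω r := by
  rcases hx with ⟨ω, r, hr, rfl⟩ | ⟨n, e, he, w, hw, rfl⟩
  · exact ⟨ω, r, hr, rfl⟩
  · exact absurd (hgt_pos (n := n) hw.1) (not_lt.2 h0)

lemma fst_nonneg {lt : ℕ → L → Ω} {E : Set (ℕ → L)} {x : Amb L Ω} (hx : x ∈ MSet lt E) :
    0 ≤ x.1 := by
  rcases hx with ⟨ω, r, hr, rfl⟩ | ⟨n, e, he, w, hw, rfl⟩
  · simp
  · exact (hgt_pos (n := n) hw.1).le

lemma fst_le_one {lt : ℕ → L → Ω} {E : Set (ℕ → L)} {x : Amb L Ω} (hx : x ∈ MSet lt E) :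
    x.1 ≤ 1 := by
  rcases hx with ⟨ω, r, hr, rfl⟩ | ⟨n, e, he, w, hw, rfl⟩
  · simp
  · exact hgt_le_one hw.2

/-- a point of the space not higher in height-level than `(n,w)` (that is `hgt n w ≤ x.1`) and
carrying the labels of `e` from level `n` on lies below `pt n e w`. -/
lemma exists_below {lt : ℕ → L → Ω} {E : Set (ℕ → L)} {x : Amb L Ω} (hx : x ∈ MSet lt E)
    {n : ℕ} {e : ℕ → L} {w : ℝ} (hw : 0 < w) (hh : hgt n w ≤ x.1)
    (hl : ∀ (j : ℕ) (l : L), n ≤ j → l ≠ e j → x.2.1 j l = 0) :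
    ∃ (m : ℕ) (e' : ℕ → L) (v : ℝ), e' ∈ E ∧ 0 < v ∧ v ≤ 1 ∧ x = pt lt m e' v ∧ m ≤ n ∧
      ∀ j, n ≤ j → e' j = e j := by
  have hpos : 0 < x.1 := (hgt_pos hw.le).trans_le hh
  obtain ⟨m, e', v, he', hv, hv1, rfl⟩ := exists_rep hx hpos
  have hmn : m ≤ n := level_le_of_hgt_le hw hv1 hh
  refine ⟨m, e', v, he', hv, hv1, rfl, hmn, fun j hj => ?_⟩
  by_contra hne
  have h := hl j (e' j) hj hne
  simp only [pt_wt, if_true] at h
  have := wt_pos hv (hmn.trans hj)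
  linarith

/-- the values of the label weights above a given point. -/
lemma wt_ge_of_hgt_le {lt : ℕ → L → Ω} {E : Set (ℕ → L)} {x : Amb L Ω} (hx : x ∈ MSet lt E)
    {n : ℕ} {w : ℝ} (hw : 0 < w) (hw1 : w ≤ 1) (hh : hgt n w ≤ x.1) {j : ℕ} (hj : n ≤ j) (l : L) :
    x.2.1 j l = 0 ∨ w ≤ x.2.1 j l := by
  have hpos : 0 < x.1 := (hgt_pos hw.le).trans_le hh
  obtain ⟨m, e', v, he', hv, hv1, rfl⟩ := exists_rep hx hpos
  have hmn : m ≤ n := level_le_of_hgt_le hw hv1 hh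
  simp only [pt_wt]
  split_ifs with h
  · right
    rcases (hmn.trans hj).lt_or_eq with h' | h'
    · rw [wt_gt h']; exact hw1
    · have : m = n := le_antisymm hmn (h' ▸ hj)
      subst this; subst h'
      rw [wt_eq]
      exact hgt_le_iff.1 hh
  · left; rfl

variable [TopologicalSpace L] [DiscreteTopology L]

lemma continuous_hgt (n : ℕ) : Continuous (hgt n) := by unfold hgt; fun_prop

lemma continuous_wt (n j : ℕ) : Continuous (fun w => wt n w j) := by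
  unfold wt; split_ifs <;> fun_prop

/-- the points depend continuously on the ray and the parameter. -/
lemma continuous_pt (lt : ℕ → L → Ω) (n : ℕ) :
    Continuous (fun p : (ℕ → L) × ℝ => pt lt n p.1 p.2) := by
  have hif : ∀ (P : L → Prop) [DecidablePred P] (j : ℕ) (f : ℝ → ℝ), Continuous f →
      Continuous (fun p : (ℕ → L) × ℝ => if P (p.1 j) then f p.2 else 0) := by
    intro P _ j f hf
    have h : (fun p : (ℕ → L) × ℝ => if P (p.1 j) then f p.2 else 0)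
        = fun p => (if P (p.1 j) then (1 : ℝ) else 0) * f p.2 := by
      funext p; split_ifs <;> simp
    rw [h]
    have h1 : Continuous (fun l : L => if P l then (1 : ℝ) else 0) := continuous_of_discreteTopology
    exact (h1.comp ((continuous_apply j).comp continuous_fst)).mul (hf.comp continuous_snd)
  refine Continuous.prodMk ((continuous_hgt n).comp continuous_snd) (Continuous.prodMk ?_ ?_)
  · refine continuous_pi fun j => continuous_pi fun l => ?_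
    exact hif (fun l' => l' = l) j _ (continuous_wt n j)
  · refine continuous_pi fun ω => ?_
    by_cases hn : 1 ≤ n
    · simp only [hn, true_and]
      exact hif (fun l' => lt n l' = ω) n _ continuous_tent
    · simp only [hn, false_and, if_false]
      exact continuous_const

omit [DecidableEq L] [TopologicalSpace L] [DiscreteTopology L] in
lemma continuous_cpt (ω : Ω) : Continuous (fun r : ℝ => cpt (L := L) ω r) := by
  refine Continuous.prodMk continuous_const (Continuous.prodMk continuous_const ?_)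
  refine continuous_pi fun ω' => ?_
  by_cases h : ω' = ω
  · simp only [h, if_true]; exact continuous_id
  · simp only [h, if_false]; exact continuous_const

omit [DecidableEq L] [TopologicalSpace L] [DiscreteTopology L] in
/-- the core is compact. -/
lemma isCompact_core [Finite Ω] :
    IsCompact {x : Amb L Ω | ∃ ω : Ω, ∃ r ∈ Icc (0 : ℝ) 1, x = cpt ω r} := by
  have : {x : Amb L Ω | ∃ ω : Ω, ∃ r ∈ Icc (0 : ℝ) 1, x = cpt ω r}
      = ⋃ ω : Ω, (fun r => cpt (L := L) ω r) '' Icc (0 : ℝ) 1 := by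
    ext x
    simp only [mem_ofPred_eq, mem_iUnion, mem_image]
    constructor
    · rintro ⟨ω, r, hr, rfl⟩; exact ⟨ω, r, hr, rfl⟩
    · rintro ⟨ω, r, hr, rfl⟩; exact ⟨ω, r, hr, rfl⟩
  rw [this]
  exact isCompact_iUnion fun ω => isCompact_Icc.image (continuous_cpt ω)

/-- each level is compact. -/
lemma isCompact_level [Finite L] (lt : ℕ → L → Ω) {E : Set (ℕ → L)} (hE : IsClosed E) (n : ℕ) :
    IsCompact {x : Amb L Ω | ∃ e ∈ E, ∃ w ∈ Icc (0 : ℝ) 1, x = pt lt n e w} := by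
  have : {x : Amb L Ω | ∃ e ∈ E, ∃ w ∈ Icc (0 : ℝ) 1, x = pt lt n e w}
      = (fun p : (ℕ → L) × ℝ => pt lt n p.1 p.2) '' (E ×ˢ Icc (0 : ℝ) 1) := by
    ext x
    simp only [mem_ofPred_eq, mem_image, mem_prod, Prod.exists]
    constructor
    · rintro ⟨e, he, w, hw, rfl⟩; exact ⟨e, w, ⟨he, hw⟩, rfl⟩
    · rintro ⟨e, w, ⟨he, hw⟩, rfl⟩; exact ⟨e, he, w, hw, rfl⟩
  rw [this]
  have : CompactSpace L := Finite.compactSpace
  exact (hE.isCompact.prod isCompact_Icc).image (continuous_pt lt n)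

omit [TopologicalSpace L] [DiscreteTopology L] in
lemma GS_zero_subset (lt : ℕ → L → Ω) (b : ℕ → L → Prop) (E S : Set (ℕ → L)) :
    YS lt b E S 0 = {y | ∃ e ∈ S, y = pt lt 0 e 1} := by
  ext y
  constructor
  · rintro ⟨n, e, w, hw, rfl, hU, ⟨heS, h⟩ | ⟨heS, h⟩⟩
    · have h1 : (1 : ℝ) ≤ hgt n w := by linarith
      have h2 : hgt n w ≤ 1 / 2 ^ n := hgt_le hw.2
      have hn : n = 0 := by
        by_contra hn
        have : (1 : ℝ) / 2 ^ n < 1 := by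
          rw [div_lt_one (by positivity)]
          exact one_lt_pow₀ (by norm_num) hn
        linarith
      subst hn
      have hw1 : w = 1 := by
        have : hgt 0 1 ≤ hgt 0 w := by rw [hgt_one]; simpa using h1
        exact le_antisymm hw.2 (hgt_le_iff.1 this)
      subst hw1
      exact ⟨e, heS, rfl⟩
    · have := hgt_pos (n := n) hw.1
      linarith
  · rintro ⟨e, he, rfl⟩
    refine ⟨0, e, 1, ⟨by norm_num, le_rfl⟩, rfl, ?_, Or.inl ⟨he, ?_⟩⟩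
    · intro j h1 h2; omega
    · rw [hgt_one]; norm_num

end gen

/-! ### Eqv -/

section eqv
variable {L : Type}

lemma Eqv.refl (b : ℕ → L → Prop) (e : ℕ → L) : Eqv b e e := fun _ => ⟨Iff.rfl, fun _ => rfl⟩
lemma Eqv.symm {b : ℕ → L → Prop} {e s : ℕ → L} (h : Eqv b e s) : Eqv b s e :=
  fun n => ⟨(h n).1.symm, fun h' => ((h n).2 (fun hc => h' ((h n).1.1 hc))).symm⟩
lemma Eqv.trans {b : ℕ → L → Prop} {e s r : ℕ → L} (h : Eqv b e s) (h' : Eqv b s r) : Eqv b e r :=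
  fun n => ⟨(h n).1.trans (h' n).1, fun hn =>
    ((h n).2 hn).trans ((h' n).2 (fun hc => hn ((h n).1.2 hc)))⟩
lemma subset_sat {b : ℕ → L → Prop} {E S : Set (ℕ → L)} (h : S ⊆ E) : S ⊆ sat b E S :=
  fun e he => ⟨h he, e, he, Eqv.refl b e⟩
lemma UB.mono {b : ℕ → L → Prop} {e : ℕ → L} {n m : ℕ} (h : UB b e n) (hm : m ≤ n) : UB b e m :=
  fun j h1 h2 => h j h1 (h2.trans hm)
lemma UB.congr {b : ℕ → L → Prop} {e e' : ℕ → L} {n : ℕ} (h : UB b e n)
    (he : ∀ j, j ≤ n → e' j = e j) : UB b e' n :=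
  fun j h1 h2 => by rw [he j h2]; exact h j h1 h2

end eqv

end Pool.Agent.Helper56.LD
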