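import Pool.Agent.Helper56.LD.Defs

/-!
Exact statements of the packets for MP_0152c0_gt (frozen S12664).
-/

set_option autoImplicit false

namespace Pool.Agent.Helper56.LD

open Set Filter Topology

/-! ### Part 1: the space -/

/-- SP1. The space is compact. -/
def StmtCompact : Prop :=
  ∀ (L Ω : Type) [DecidableEq L] [DecidableEq Ω] [TopologicalSpace L] [DiscreteTopology L]
    [Finite L] [Finite Ω] (lt : ℕ → L → Ω) (E : Set (ℕ → L)), IsClosed E →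
    IsCompact (MSet lt E)

/-- SP2. Cut point lemma: if `A` is closed and preconnected and contains the point `pt n1 e w1`
but not the point `pt n e w` above it, then `A` lies below `pt n e w`. -/
def StmtCut : Prop :=
  ∀ (L Ω : Type) [DecidableEq L] [DecidableEq Ω] [TopologicalSpace L] [DiscreteTopology L]
    [Finite L] [Finite Ω] (lt : ℕ → L → Ω) (E : Set (ℕ → L)), IsClosed E →
    ∀ A : Set (Amb L Ω), A ⊆ MSet lt E → IsClosed A → IsPreconnected A →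
    ∀ (n : ℕ) (e : ℕ → L) (w : ℝ), e ∈ E → 0 < w → w ≤ 1 → pt lt n e w ∉ A →
    ∀ (n1 : ℕ) (w1 : ℝ), w1 ∈ Icc (0 : ℝ) 1 → hgt n w < hgt n1 w1 → pt lt n1 e w1 ∈ A →
    ∀ y ∈ A, hgt n w ≤ y.1 ∧ ∀ (j : ℕ) (l : L), n ≤ j → l ≠ e j → y.2.1 j l = 0

/-- SP3. The push-up retractions. -/
def StmtPush : Prop :=
  ∀ (L Ω : Type) [DecidableEq L] [DecidableEq Ω] [TopologicalSpace L] [DiscreteTopology L]
    [Finite L] [Finite Ω] (lt : ℕ → L → Ω) (E : Set (ℕ → L)) (n : ℕ),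
    ContinuousOn (push n) (MSet lt E) ∧ MapsTo (push n) (MSet lt E) (MSet lt E) ∧
    (∀ x ∈ MSet lt E, x.1 ≤ hgt n 1 → push n x = x) ∧
    ∀ e ∈ E, ∀ (m : ℕ) (w : ℝ), w ∈ Icc (0 : ℝ) 1 → hgt n 1 ≤ hgt m w →
      push n (pt lt m e w) = pt lt n e 1

/-- SP4. The space is connected. -/
def StmtConn : Prop :=
  ∀ (L Ω : Type) [DecidableEq L] [DecidableEq Ω] [TopologicalSpace L] [DiscreteTopology L]
    [Finite L] [Finite Ω] (lt : ℕ → L → Ω) (E : Set (ℕ → L)), E.Nonempty →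
    IsConnected (MSet lt E)

/-- SP5. Hereditary unicoherence. -/
def StmtHU : Prop :=
  ∀ (L Ω : Type) [DecidableEq L] [DecidableEq Ω] [TopologicalSpace L] [DiscreteTopology L]
    [Finite L] [Finite Ω] (lt : ℕ → L → Ω) (E : Set (ℕ → L)), IsClosed E →
    ∀ A B : Set (Amb L Ω), A ⊆ MSet lt E → B ⊆ MSet lt E → IsClosed A → IsConnected A →
      IsClosed B → IsConnected B → IsPreconnected (A ∩ B)

/-- SP6. Hereditary decomposability. -/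
def StmtHD : Prop :=
  ∀ (L Ω : Type) [DecidableEq L] [DecidableEq Ω] [TopologicalSpace L] [DiscreteTopology L]
    [Finite L] [Finite Ω] (lt : ℕ → L → Ω) (E : Set (ℕ → L)), IsClosed E →
    ∀ K : Set (Amb L Ω), K ⊆ MSet lt E → IsClosed K → IsConnected K → K.Nontrivial →
      ∃ A B : Set (Amb L Ω), IsClosed A ∧ IsConnected A ∧ IsClosed B ∧ IsConnected B ∧
        A ⊂ K ∧ B ⊂ K ∧ A ∪ B = K

/-! ### Part 2: the set-valued map -/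

/-- SM1. The value is well defined. -/
def StmtVal : Prop :=
  ∀ (L Ω : Type) [DecidableEq L] [DecidableEq Ω] [TopologicalSpace L] [DiscreteTopology L]
    [Finite L] [Finite Ω] (Z : Sys L Ω) (x : Amb L Ω), x ∈ MSet Z.lt Z.E →
    ∃ V, IsVal Z x V ∧ ∀ V', IsVal Z x V' → V' = V

/-- SM2. Values are nonempty closed subsets of the space. -/
def StmtValNe : Prop :=
  ∀ (L Ω : Type) [DecidableEq L] [DecidableEq Ω] [TopologicalSpace L] [DiscreteTopology L]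
    [Finite L] [Finite Ω] (Z : Sys L Ω) (x : Amb L Ω) (V : Set (Amb L Ω)), IsVal Z x V →
    V.Nonempty ∧ IsClosed V ∧ V ⊆ MSet Z.lt Z.E

/-- SM3. No fixed points. -/
def StmtNoFix : Prop :=
  ∀ (L Ω : Type) [DecidableEq L] [DecidableEq Ω] [TopologicalSpace L] [DiscreteTopology L]
    [Finite L] [Finite Ω] (Z : Sys L Ω) (x : Amb L Ω) (V : Set (Amb L Ω)), IsVal Z x V → x ∉ V

/-- SM4. Upper semicontinuity, parametrized form. -/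
def StmtUSC : Prop :=
  ∀ (L Ω : Type) [DecidableEq L] [DecidableEq Ω] [TopologicalSpace L] [DiscreteTopology L]
    [Finite L] [Finite Ω] (lt : ℕ → L → Ω) (b : ℕ → L → Prop) (E : Set (ℕ → L)), IsClosed E →
    ∀ (A : Set (ℕ → L)) (S : (ℕ → L) → Set (ℕ → L)), (∀ a ∈ A, S a ⊆ E) →
    IsClosed {p : (ℕ → L) × (ℕ → L) | p.1 ∈ A ∧ p.2 ∈ S p.1} → IsClosed A →
    (∃ m : ℕ, ∀ a ∈ A, ∀ e ∈ sat b E (S a), UB b e m → e ∈ S a) →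
    (∀ a ∈ A, ∃ K : ℕ, ∀ a' ∈ A, (∀ j < K, a' j = a j) → ∀ e ∈ S a', UB b e K → e ∈ S a) →
    IsClosed {q : (ℕ → L) × ℝ × Amb L Ω | q.1 ∈ A ∧ q.2.1 ∈ Icc (0 : ℝ) 1 ∧
      q.2.2 ∈ GS lt b E (S q.1) q.2.1}

/-- SM5. Lower semicontinuity, parametrized form. -/
def StmtLSC : Prop :=
  ∀ (L Ω : Type) [DecidableEq L] [DecidableEq Ω] [TopologicalSpace L] [DiscreteTopology L]
    [Finite L] [Finite Ω] (lt : ℕ → L → Ω) (b : ℕ → L → Prop) (E : Set (ℕ → L))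
    (A : Set (ℕ → L)) (S : (ℕ → L) → Set (ℕ → L)), (∀ a ∈ A, S a ⊆ E) →
    (∀ a ∈ A, ∀ e ∈ S a, ∀ k : ℕ, ∃ K : ℕ, ∀ a' ∈ A, (∀ j < K, a' j = a j) →
      ∃ e' ∈ S a', ∀ j < k, e' j = e j) →
    (∀ a ∈ A, ∀ e ∈ sat b E (S a), ∀ k : ℕ, ∃ K : ℕ, ∀ a' ∈ A, (∀ j < K, a' j = a j) →
      ∃ e' ∈ sat b E (S a'), ∀ j < k, e' j = e j) →
    ∀ a ∈ A, ∀ τ ∈ Icc (0 : ℝ) 1, ∀ U : Set (Amb L Ω), IsOpen U →
      (GS lt b E (S a) τ ∩ U).Nonempty →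
      ∃ K : ℕ, ∃ ε > 0, ∀ a' ∈ A, (∀ j < K, a' j = a j) → ∀ τ' ∈ Icc (0 : ℝ) 1, |τ' - τ| < ε →
        (GS lt b E (S a') τ' ∩ U).Nonempty

/-- SM6. Lower semicontinuity at the core. -/
def StmtLSCcore : Prop :=
  ∀ (L Ω : Type) [DecidableEq L] [DecidableEq Ω] [TopologicalSpace L] [DiscreteTopology L]
    [Finite L] [Finite Ω] (Z : Sys L Ω) (ω : Ω) (τ : ℝ), τ ∈ Icc (0 : ℝ) 1 →
    ∀ U : Set (Amb L Ω), IsOpen U → (GS Z.lt (Z.bl ⊤ ω) Z.E Z.E τ ∩ U).Nonempty →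
    ∃ n0 : ℕ, ∃ ε > 0, ∀ τ' ∈ Icc (0 : ℝ) 1, |τ' - τ| < ε →
      (GS Z.lt (Z.bl ⊤ ω) Z.E Z.E τ' ∩ U).Nonempty ∧
      ∀ n n' : ℕ, n0 ≤ n → (n' = n ∨ n' = n + 1) → ∀ a ∈ Z.E,
        (GS Z.lt (Z.bl n ω) Z.E (Z.S n' a) τ' ∩ U).Nonempty

/-- SM7. The set where the value meets a closed set is closed. -/
def StmtHit : Prop :=
  ∀ (L Ω : Type) [DecidableEq L] [DecidableEq Ω] [TopologicalSpace L] [DiscreteTopology L]
    [Finite L] [Finite Ω] (Z : Sys L Ω) (C : Set (Amb L Ω)), IsClosed C →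
    IsClosed {x : Amb L Ω | x ∈ MSet Z.lt Z.E ∧ ∃ V, IsVal Z x V ∧ (V ∩ C).Nonempty}

/-- SM8. The set where the value misses an open set is closed. -/
def StmtMiss : Prop :=
  ∀ (L Ω : Type) [DecidableEq L] [DecidableEq Ω] [TopologicalSpace L] [DiscreteTopology L]
    [Finite L] [Finite Ω] (Z : Sys L Ω) (U : Set (Amb L Ω)), IsOpen U →
    IsClosed {x : Amb L Ω | x ∈ MSet Z.lt Z.E ∧ ∃ V, IsVal Z x V ∧ V ∩ U = ∅}

/-! ### Part 3: the concrete system -/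

/-- CO1. The word exists. -/
def StmtWord : Prop := ∃ u : ℕ → Fin 3, GoodWord u

/-- CO2. Basic facts on `ES`. -/
def StmtES : Prop :=
  IsClosed ES ∧ ES.Nonempty ∧
  (∀ e ∈ ES, ∀ i j : ℕ, i ≤ j → IsMain (e i) → IsMain (e j)) ∧
  (∀ e ∈ ES, ∀ (i j : ℕ) (κ : Bool) (t : Fin 3), i ≤ j → e j = Sum.inr (κ, t) →
    ∃ t', e i = Sum.inr (κ, t')) ∧
  (∀ e ∈ ES, ∀ s ∈ ES, ∀ N : ℕ, e N = s N → (fun j => if j < N then e j else s j) ∈ ES)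

/-- CO3. Basic facts on `mu`. -/
def StmtMu : Prop :=
  ∀ a ∈ ES, ∀ N : ℕ, IsMain (a N) →
    mu N a ∈ ES ∧ (∀ l, IsMain (mu N a l)) ∧
    ((¬ ∃ i : ℕ, N + 1 = 4 ^ i) → a (N + 1) = a N ∧ mu (N + 1) a = mu N a) ∧
    (∀ l, N < 16 * l + 4 → mu (N + 1) a l = mu N a l)

/-- CO4. Matching along main edges. -/
def StmtMatMain : Prop :=
  ∀ (u : ℕ → Fin 3) (n : ℕ) (a : ℕ → Lab), 1 ≤ n → a ∈ ES → IsMain (a n) →
    sat (blk u n (ltr u n (a n))) ES (SS n a) = sat (blk u n (ltr u n (a n))) ES (SS (n + 1) a)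

/-- CO5. The main condition only depends on the main part. -/
def StmtMainInv : Prop :=
  ∀ (N : ℕ) (a e e' : ℕ → Lab), a ∈ ES → IsMain (a N) →
    (∀ j, (IsMain (e j) ∨ IsMain (e' j)) → e j = e' j) → MainC N a e → MainC N a e'

/-- CO6. Forward matching of the auxiliary condition. -/
def StmtAuxFwd : Prop :=
  ∀ (u : ℕ → Fin 3), GoodWord u → ∀ (n : ℕ) (κ : Bool) (τ τ' : Fin 3), 1 ≤ n →
    (τ = τ' ∨ τ = τ' + 1) → ∀ e ∈ ES, AuxOK n κ τ e →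
    ∃ e' ∈ ES, AuxOK (n + 1) κ τ' e' ∧ Eqv (blk u n (Sum.inr (κ, τ, u n))) e e' ∧
      ∀ j, (IsMain (e j) ∨ IsMain (e' j)) → e j = e' j

/-- CO7. Backward matching of the auxiliary condition. -/
def StmtAuxBwd : Prop :=
  ∀ (u : ℕ → Fin 3), GoodWord u → ∀ (n : ℕ) (κ : Bool) (τ τ' : Fin 3), 1 ≤ n →
    (τ = τ' ∨ τ = τ' + 1) → ∀ e' ∈ ES, AuxOK (n + 1) κ τ' e' →
    ∃ e ∈ ES, AuxOK n κ τ e ∧ Eqv (blk u n (Sum.inr (κ, τ, u n))) e' e ∧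
      ∀ j, (IsMain (e j) ∨ IsMain (e' j)) → e j = e' j

/-- CO8. Root edges: every element satisfying the main condition at height `n+1` is
allowed. -/
def StmtRoot : Prop :=
  ∀ (n : ℕ) (κ : Bool) (τ : Fin 3) (a e : ℕ → Lab), a ∈ ES → e ∈ ES → IsMain (a (n + 1)) →
    MainC (n + 1) a e → AuxOK n κ τ e

/-- CO9. Matching along auxiliary edges. -/
def StmtMatAux : Prop :=
  ∀ (u : ℕ → Fin 3), GoodWord u → ∀ (n : ℕ) (a : ℕ → Lab), 1 ≤ n → a ∈ ES → IsAux (a n) →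
    sat (blk u n (ltr u n (a n))) ES (SS n a) = sat (blk u n (ltr u n (a n))) ES (SS (n + 1) a)

/-- CO10. Extension lemma. -/
def StmtExt : Prop :=
  ∀ k : ℕ, ∃ K : ℕ, ∀ N, K ≤ N → ∀ a ∈ ES, IsMain (a N) → ∀ e ∈ ES, ∃ e' ∈ ES,
    MainC N a e' ∧ (∀ j < k, e' j = e j) ∧ ∀ j, k ≤ j → IsMain (e' j)

/-- CO11. Elements satisfying the main condition are eventually main, uniformly. -/
def StmtTail : Prop :=
  ∀ N : ℕ, ∃ k : ℕ, (∀ (a e : ℕ → Lab), a ∈ ES → IsMain (a N) → MainC N a e →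
    ∀ j, k ≤ j → IsMain (e j)) ∧ 4 * k ≤ N ∧ (N ≤ 4 → k = 0)

/-- CO12. -/
def StmtC1 : Prop :=
  ∀ n, 1 ≤ n → IsClosed {p : (ℕ → Lab) × (ℕ → Lab) | p.1 ∈ ES ∧ p.2 ∈ SS n p.1}

/-- CO13. -/
def StmtC2 : Prop :=
  ∀ (n : ℕ) (a : ℕ → Lab), 1 ≤ n → a ∈ ES → ∀ e ∈ SS n a, ∀ k : ℕ, ∃ K : ℕ, ∀ a' ∈ ES,
    (∀ j < K, a' j = a j) → ∃ e' ∈ SS n a', ∀ j < k, e' j = e j

/-- CO14. -/
def StmtC2s : Prop :=
  ∀ (u : ℕ → Fin 3) (n n' : ℕ) (a : ℕ → Lab), 1 ≤ n → (n' = n ∨ n' = n + 1) → a ∈ ES →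
    ∀ e ∈ sat (blk u n (ltr u n (a n))) ES (SS n' a), ∀ k : ℕ, ∃ K : ℕ, ∀ a' ∈ ES,
    (∀ j < K, a' j = a j) → ∃ e' ∈ sat (blk u n (ltr u n (a n))) ES (SS n' a'),
      ∀ j < k, e' j = e j

/-- CO15. -/
def StmtC3 : Prop :=
  ∀ (u : ℕ → Fin 3) (n n' : ℕ) (a : ℕ → Lab), 1 ≤ n → (n' = n ∨ n' = n + 1) → a ∈ ES →
    ∀ e ∈ sat (blk u n (ltr u n (a n))) ES (SS n' a),
      UB (blk u n (ltr u n (a n))) e (n + 1) → e ∈ SS n' a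

/-- CO16. -/
def StmtC4 : Prop :=
  ∀ (u : ℕ → Fin 3) (n n' : ℕ) (a : ℕ → Lab), 1 ≤ n → (n' = n ∨ n' = n + 1) → a ∈ ES →
    ∃ K : ℕ, ∀ a' ∈ ES, (∀ j < K, a' j = a j) → ∀ e ∈ SS n' a',
      UB (blk u n (ltr u n (a n))) e K → e ∈ SS n' a

/-- CO17. -/
def StmtC5 : Prop :=
  ∀ k : ℕ, ∃ n0 : ℕ, ∀ n, n0 ≤ n → ∀ a ∈ ES, ∀ e ∈ ES, ∃ e' ∈ SS n a, ∀ j < k, e' j = e j

/-- CO18. -/
def StmtC6 : Prop := ∀ a ∈ ES, a ∉ SS 1 a

/-- CO19. -/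
def StmtSne : Prop := ∀ (n : ℕ) (a : ℕ → Lab), 1 ≤ n → a ∈ ES → (SS n a).Nonempty

/-- CO20. -/
def StmtStail : Prop :=
  ∀ (n : ℕ) (a a' : ℕ → Lab), (∀ j, n ≤ j → a j = a' j) → SS n a = SS n a'

end Pool.Agent.Helper56.LD
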