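import Mathlib

/-!
Definitions for the counterexample to the fixed point property of lambda-dendroids for
continuous maps into the hyperspace of nonempty closed sets (MP_0152c0_gt, frozen S12664).

Part 1: the space `MSet lt E` (generic), Part 2: the set-valued map (generic, from a `Sys`),
Part 3: the concrete system.
-/

set_option autoImplicit false

namespace Pool.Agent.Helper56.LD

open Set Filter Topology

/-! ### Part 1: the space -/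

/-- The ambient space: height, label weights, star coordinates. -/
abbrev Amb (L Ω : Type) := ℝ × (ℕ → L → ℝ) × (Ω → ℝ)

noncomputable def tent (x : ℝ) : ℝ := 1 - |2 * x - 1|

/-- weight of level `j` at the point of level `n` with parameter `w`. -/
noncomputable def wt (n : ℕ) (w : ℝ) (j : ℕ) : ℝ := if j < n then 0 else if j = n then w else 1

/-- height of the point of level `n` with parameter `w`. -/
noncomputable def hgt (n : ℕ) (w : ℝ) : ℝ := (1 + w) / 2 ^ (n + 1)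

section gen

variable {L Ω : Type} [DecidableEq L] [DecidableEq Ω]

/-- the point of level `n` and parameter `w` on the ray of `e`. -/
noncomputable def pt (lt : ℕ → L → Ω) (n : ℕ) (e : ℕ → L) (w : ℝ) : Amb L Ω :=
  (hgt n w, fun j l => if e j = l then wt n w j else 0,
    fun ω => if 1 ≤ n ∧ lt n (e n) = ω then tent w else 0)

/-- the core point on the arm `ω` at distance `r` from the centre. -/
noncomputable def cpt (ω : Ω) (r : ℝ) : Amb L Ω :=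
  (0, fun _ _ => 0, fun ω' => if ω' = ω then r else 0)

/-- the space. -/
def MSet (lt : ℕ → L → Ω) (E : Set (ℕ → L)) : Set (Amb L Ω) :=
  {x | (∃ ω : Ω, ∃ r ∈ Icc (0 : ℝ) 1, x = cpt ω r) ∨
    ∃ n : ℕ, ∃ e ∈ E, ∃ w ∈ Icc (0 : ℝ) 1, x = pt lt n e w}

/-- push everything below the hub of height `n` up to that hub. -/
noncomputable def push (n : ℕ) (x : Amb L Ω) : Amb L Ω :=
  (min x.1 (hgt n 1), fun j l => min (x.2.1 j l) (if j < n then 0 else 1),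
    fun ω => if x.1 ≤ hgt n 1 then x.2.2 ω else 0)

/-! ### Part 2: the set-valued map -/

/-- `e` is unblocked at the levels `1, …, n`. -/
def UB (b : ℕ → L → Prop) (e : ℕ → L) (n : ℕ) : Prop := ∀ j, 1 ≤ j → j ≤ n → ¬ b j (e j)

/-- same first blocked level and same tail from there on. -/
def Eqv (b : ℕ → L → Prop) (e s : ℕ → L) : Prop :=
  ∀ n, (UB b e n ↔ UB b s n) ∧ (¬ UB b e n → e n = s n)

/-- saturation of `S` in `E`. -/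
def sat (b : ℕ → L → Prop) (E S : Set (ℕ → L)) : Set (ℕ → L) :=
  {e | e ∈ E ∧ ∃ s ∈ S, Eqv b e s}

def YS (lt : ℕ → L → Ω) (b : ℕ → L → Prop) (E S : Set (ℕ → L)) (τ : ℝ) : Set (Amb L Ω) :=
  {y | ∃ (n : ℕ) (e : ℕ → L) (w : ℝ), w ∈ Icc (0 : ℝ) 1 ∧ y = pt lt n e w ∧ UB b e n ∧
    ((e ∈ S ∧ 1 - 2 * τ ≤ hgt n w) ∨ (e ∈ sat b E S ∧ hgt n w ≤ 2 * τ - 1))}

def GS (lt : ℕ → L → Ω) (b : ℕ → L → Prop) (E S : Set (ℕ → L)) (τ : ℝ) : Set (Amb L Ω) :=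
  closure (YS lt b E S τ)

end gen

/-- The combinatorial data of the construction. -/
structure Sys (L Ω : Type) [DecidableEq L] [DecidableEq Ω] [TopologicalSpace L] where
  E : Set (ℕ → L)
  lt : ℕ → L → Ω
  bl : ℕ∞ → Ω → ℕ → L → Prop
  S : ℕ → (ℕ → L) → Set (ℕ → L)
  E_closed : IsClosed E
  E_ne : E.Nonempty
  S_sub : ∀ (n : ℕ) (a : ℕ → L), 1 ≤ n → a ∈ E → S n a ⊆ E
  S_ne : ∀ (n : ℕ) (a : ℕ → L), 1 ≤ n → a ∈ E → (S n a).Nonempty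
  S_tail : ∀ (n : ℕ) (a a' : ℕ → L), 1 ≤ n → a ∈ E → a' ∈ E → (∀ j, n ≤ j → a j = a' j) → S n a = S n a'
  b1 : ∀ (n : ℕ∞) (ω : Ω) (j : ℕ) (l : L), 1 ≤ j → lt j l = ω → bl n ω j l
  b2 : ∀ (n : ℕ∞) (ω : Ω) (j : ℕ) (l : L), bl ⊤ ω j l → bl n ω j l
  b3 : ∀ (n : ℕ) (ω : Ω) (j : ℕ) (l : L), j < n → bl n ω j l → bl ⊤ ω j l
  mat : ∀ (n : ℕ) (a : ℕ → L), 1 ≤ n → a ∈ E →
    sat (bl n (lt n (a n))) E (S n a) = sat (bl n (lt n (a n))) E (S (n + 1) a)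
  c1 : ∀ n, 1 ≤ n → IsClosed {p : (ℕ → L) × (ℕ → L) | p.1 ∈ E ∧ p.2 ∈ S n p.1}
  c2 : ∀ (n : ℕ) (a : ℕ → L), 1 ≤ n → a ∈ E → ∀ e ∈ S n a, ∀ k : ℕ, ∃ K : ℕ, ∀ a' ∈ E,
    (∀ j < K, a' j = a j) → ∃ e' ∈ S n a', ∀ j < k, e' j = e j
  c2s : ∀ (n n' : ℕ) (a : ℕ → L), 1 ≤ n → (n' = n ∨ n' = n + 1) → a ∈ E →
    ∀ e ∈ sat (bl n (lt n (a n))) E (S n' a), ∀ k : ℕ, ∃ K : ℕ, ∀ a' ∈ E,
    (∀ j < K, a' j = a j) → ∃ e' ∈ sat (bl n (lt n (a n))) E (S n' a'), ∀ j < k, e' j = e j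
  c3 : ∀ (n n' : ℕ) (a : ℕ → L), 1 ≤ n → (n' = n ∨ n' = n + 1) → a ∈ E →
    ∀ e ∈ sat (bl n (lt n (a n))) E (S n' a), UB (bl n (lt n (a n))) e (n + 1) → e ∈ S n' a
  c4 : ∀ (n n' : ℕ) (a : ℕ → L), 1 ≤ n → (n' = n ∨ n' = n + 1) → a ∈ E → ∃ K : ℕ, ∀ a' ∈ E,
    (∀ j < K, a' j = a j) → ∀ e ∈ S n' a', UB (bl n (lt n (a n))) e K → e ∈ S n' a
  c5 : ∀ k : ℕ, ∃ n0 : ℕ, ∀ n, n0 ≤ n → ∀ a ∈ E, ∀ e ∈ E, ∃ e' ∈ S n a, ∀ j < k, e' j = e j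
  c6 : ∀ a ∈ E, a ∉ S 1 a

/-- `V` is the value of the set-valued map at `x`. -/
def IsVal {L Ω : Type} [DecidableEq L] [DecidableEq Ω] [TopologicalSpace L] (Z : Sys L Ω)
    (x : Amb L Ω) (V : Set (Amb L Ω)) : Prop :=
  (∃ a ∈ Z.E, ∃ w ∈ Icc (0 : ℝ) 1, x = pt Z.lt 0 a w ∧
      V = GS Z.lt (Z.bl 1 (Z.lt 1 (a 1))) Z.E (Z.S 1 a) 0) ∨
  (∃ n : ℕ, 1 ≤ n ∧ ∃ a ∈ Z.E, ∃ w ∈ Icc (1 / 2 : ℝ) 1, x = pt Z.lt n a w ∧
      V = GS Z.lt (Z.bl n (Z.lt n (a n))) Z.E (Z.S n a) (tent w)) ∨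
  (∃ n : ℕ, 1 ≤ n ∧ ∃ a ∈ Z.E, ∃ w ∈ Icc (0 : ℝ) (1 / 2), x = pt Z.lt n a w ∧
      V = GS Z.lt (Z.bl n (Z.lt n (a n))) Z.E (Z.S (n + 1) a) (tent w)) ∨
  (∃ ω : Ω, ∃ r ∈ Icc (0 : ℝ) 1, x = cpt ω r ∧ V = GS Z.lt (Z.bl ⊤ ω) Z.E Z.E r)

/-! ### Part 3: the concrete system -/

/-- labels: `inl τ` is the main label of type `τ`, `inr (κ, t)` the auxiliary label of kind `κ`
and type `t`. -/
abbrev Lab := Fin 4 ⊕ (Bool × Fin 3)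

/-- letters. -/
abbrev Om := Bool ⊕ (Bool × Fin 3 × Fin 3)

def IsMain (l : Lab) : Prop := ∃ τ, l = Sum.inl τ

def IsAux (l : Lab) : Prop := ∃ q, l = Sum.inr q

/-- transition at the hub of height `h`: outer label (level `h`), inner label (level `h-1`). -/
def Tr (h : ℕ) : Lab → Lab → Prop
  | Sum.inl τ, Sum.inl σ => σ = τ ∨ (σ = τ + 1 ∧ ∃ i : ℕ, h = 4 ^ i)
  | Sum.inl _, Sum.inr _ => True
  | Sum.inr _, Sum.inl _ => False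
  | Sum.inr (κ, t), Sum.inr (κ', t') => κ' = κ ∧ (t' = t ∨ t' = t + 1)

/-- the index set of rays. -/
def ES : Set (ℕ → Lab) := {e | ∀ j, Tr (j + 1) (e (j + 1)) (e j)}

def par (j : ℕ) : Bool := decide (j % 2 = 1)

/-- the letter of a label at level `j`. -/
def ltr (u : ℕ → Fin 3) (j : ℕ) : Lab → Om
  | Sum.inl _ => Sum.inl (par j)
  | Sum.inr (κ, t) => Sum.inr (κ, t, u j)

/-- blocked levels. -/
def blk (u : ℕ → Fin 3) (n : ℕ∞) : Om → ℕ → Lab → Prop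
  | Sum.inl ε, j, Sum.inl _ => par j = ε
  | Sum.inl _, _, Sum.inr _ => False
  | Sum.inr _, _, Sum.inl _ => True
  | Sum.inr (κ, τ, r), j, Sum.inr (κ', t) => κ' = κ ∧ (n ≤ (j : ℕ∞) ∨ (t = τ ∧ u j = r))

def dec : Lab → Lab
  | Sum.inl τ => Sum.inl (τ - 1)
  | Sum.inr q => Sum.inr q

/-- the reference ray. -/
def mu (N : ℕ) (a : ℕ → Lab) (l : ℕ) : Lab := dec (a (max (16 * l + 4) N))

/-- `N` is the least main level of `a` that is `≥ n`. -/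
def IsN (n : ℕ) (a : ℕ → Lab) (N : ℕ) : Prop :=
  n ≤ N ∧ IsMain (a N) ∧ ∀ j, n ≤ j → j < N → IsAux (a j)

def QQ (i N : ℕ) (a e : ℕ → Lab) : Prop := ∀ l, 4 ^ i / 4 ≤ l → IsMain (e l) → e l = mu N a l

/-- the main condition for `4^(i+1) < N ≤ 4^(i+2)`. -/
def MainI (i N : ℕ) (a e : ℕ → Lab) : Prop :=
  (∀ l, 4 ^ i ≤ l → e l = mu N a l) ∧
  ((4 ^ (i + 2) - N ≤ 4 ^ i ∧ (QQ i N a e ∨ 4 ^ (i + 2) = N ∨ IsAux (e (4 ^ (i + 2) - N - 1)))) ∨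
   (4 ^ i < 4 ^ (i + 2) - N ∧ QQ i N a e ∧
      IsMain (e (max (4 ^ i / 4) (2 * 4 ^ i + 1 - (4 ^ (i + 2) - N))))))

def MainC (N : ℕ) (a e : ℕ → Lab) : Prop :=
  (N ≤ 4 → ∀ l, e l = mu N a l) ∧
  ∀ i, 4 ^ (i + 1) < N → N ≤ 4 ^ (i + 2) → MainI i N a e

/-- `ν` is the first main level of `e`. -/
def IsNu (e : ℕ → Lab) (ν : ℕ) : Prop := IsMain (e ν) ∧ ∀ j < ν, IsAux (e j)

/-- `k` is least with `ν ≤ 2^k`. -/
def IsK (ν k : ℕ) : Prop := ν ≤ 2 ^ k ∧ ∀ k' < k, 2 ^ k' < ν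

def BB (κ : Bool) (τ : Fin 3) (m : ℕ) (e : ℕ → Lab) : Prop :=
  (∀ j, j + 1 < m → e j = Sum.inr (κ, τ + 2)) ∧
  (e (m - 1) = Sum.inr (κ, τ + 1) ∨ e (m - 1) = Sum.inr (κ, τ + 2))

def Leg (n : ℕ) (κ : Bool) (τ : Fin 3) (e : ℕ → Lab) : Prop :=
  ∃ ν k : ℕ, IsNu e ν ∧ IsK ν k ∧
    (2 ^ (k + 1) ≤ n ∨
      (2 ^ k < n ∧ n < 2 ^ (k + 1) ∧ 2 ^ (k + 1) - n < ν ∧ BB κ τ (2 ^ (k + 1) - n) e))

def AuxOK (n : ℕ) (κ : Bool) (τ : Fin 3) (e : ℕ → Lab) : Prop :=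
  IsMain (e 0) ∨ (∃ t, e 0 = Sum.inr (!κ, t)) ∨ Leg n κ τ e

/-- the hub sets. -/
def SS (n : ℕ) (a : ℕ → Lab) : Set (ℕ → Lab) :=
  {e | e ∈ ES ∧ (∀ N, IsN n a N → MainC N a e) ∧
    ∀ κ τ, a n = Sum.inr (κ, τ) → AuxOK n κ τ e}

/-- the property of the word `u` used in the construction. -/
def GoodWord (u : ℕ → Fin 3) : Prop :=
  ∀ k n m : ℕ, n + m = 2 ^ (k + 1) - 1 → 1 ≤ m → m < 2 ^ k →
    u n ≠ u m ∧ (2 ≤ m → u n ≠ u (m - 1))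

end Pool.Agent.Helper56.LD
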