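import Pool.Agent.Helper56.LD.Goals
import Pool.Agent.Helper56.LD.Basics

set_option autoImplicit false

namespace Pool.Agent.Helper56.LD

open Set Filter Topology TopologicalSpace

attribute [local instance] TopologicalSpace.vietoris in
theorem cont_of (M : Type) [MetricSpace M] [CompactSpace M] (f : M → NonemptyCompacts M)
    (h1 : ∀ U : Set M, IsOpen U → IsOpen {x | (f x : Set M) ⊆ U})
    (h2 : ∀ F : Set M, IsClosed F → IsClosed {x | (f x : Set M) ⊆ F}) : Continuous f := by
  rw [NonemptyCompacts.isEmbedding_coe.continuous_iff]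
  rw [vietoris.continuous_iff]
  exact ⟨h1, h2⟩

/-- The generic theorem: a system gives a counterexample. -/
theorem of_sys (hC : StmtCompact) (hConn : StmtConn) (hHU : StmtHU) (hHD : StmtHD)
    (hV : StmtVal) (hVne : StmtValNe) (hNF : StmtNoFix) (hHit : StmtHit) (hMiss : StmtMiss)
    (L Ω : Type) [DecidableEq L] [DecidableEq Ω] [TopologicalSpace L] [DiscreteTopology L]
    [Finite L] [Finite Ω] (Z : Sys L Ω) :
    ¬ (∀ (M : Type) [MetricSpace M] [CompactSpace M] [ConnectedSpace M] [Nonempty M],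
      (∀ A B : Set M, IsClosed A → IsConnected A → IsClosed B → IsConnected B →
          IsPreconnected (A ∩ B)) →
      (∀ K : Set M, IsClosed K → IsConnected K → K.Nontrivial →
          ∃ A B : Set M, IsClosed A ∧ IsConnected A ∧ IsClosed B ∧ IsConnected B ∧
            A ⊂ K ∧ B ⊂ K ∧ A ∪ B = K) →
      ∀ f : M → TopologicalSpace.NonemptyCompacts M, Continuous f →
        ∃ x : M, x ∈ f x) := by
  intro H
  have hcomp : IsCompact (MSet Z.lt Z.E) := hC L Ω Z.lt Z.E Z.E_closed
  have hconn : IsConnected (MSet Z.lt Z.E) := hConn L Ω Z.lt Z.E Z.E_ne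
  have hclosed : IsClosed (MSet Z.lt Z.E) := hcomp.isClosed
  let M : Type := ↥(MSet Z.lt Z.E)
  letI : MetricSpace M := TopologicalSpace.metrizableSpaceMetric M
  haveI : CompactSpace M := isCompact_iff_compactSpace.1 hcomp
  haveI : ConnectedSpace M := isConnected_iff_connectedSpace.1 hconn
  haveI : Nonempty M := hconn.nonempty.to_subtype
  have hind : IsInducing (Subtype.val : M → Amb L Ω) := IsInducing.subtypeVal
  have hce : IsClosedEmbedding (Subtype.val : M → Amb L Ω) := hclosed.isClosedEmbedding_subtypeVal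
  have hsub : ∀ A : Set M, Subtype.val '' A ⊆ MSet Z.lt Z.E := by
    rintro A _ ⟨x, _, rfl⟩; exact x.2
  -- the value
  have hval : ∀ x : M, ∃ V, IsVal Z (x : Amb L Ω) V ∧ ∀ V', IsVal Z (x : Amb L Ω) V' → V' = V :=
    fun x => hV L Ω Z x x.2
  choose V hV1 hV2 using hval
  have hVc : ∀ x : M, IsCompact (Subtype.val ⁻¹' (V x) : Set M) := by
    intro x
    exact ((hVne L Ω Z x (V x) (hV1 x)).2.1.preimage continuous_subtype_val).isCompact
  have hVn : ∀ x : M, (Subtype.val ⁻¹' (V x) : Set M).Nonempty := by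
    intro x
    obtain ⟨⟨y, hy⟩, -, hs⟩ := hVne L Ω Z x (V x) (hV1 x)
    exact ⟨⟨y, hs hy⟩, hy⟩
  let f : M → NonemptyCompacts M := fun x => ⟨⟨Subtype.val ⁻¹' (V x), hVc x⟩, hVn x⟩
  have hfx : ∀ x : M, (f x : Set M) = Subtype.val ⁻¹' (V x) := fun x => rfl
  have hf : Continuous f := by
    apply cont_of
    · intro U hU
      have hCl : IsClosed (Subtype.val '' Uᶜ : Set (Amb L Ω)) :=
        hce.isClosedMap _ hU.isClosed_compl
      have h := (hHit L Ω Z _ hCl).preimage (continuous_subtype_val (p := (· ∈ MSet Z.lt Z.E)))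
      rw [← isClosed_compl_iff]
      suffices hs : ({x : M | (f x : Set M) ⊆ U}ᶜ : Set M) = Subtype.val ⁻¹'
          {x : Amb L Ω | x ∈ MSet Z.lt Z.E ∧ ∃ V, IsVal Z x V ∧
            (V ∩ (Subtype.val '' Uᶜ)).Nonempty} by rw [hs]; exact h
      refine Set.ext fun x => ?_
      constructor
      · intro hx
        have hx' : ¬ ((Subtype.val ⁻¹' (V x) : Set M) ⊆ U) := hx
        rw [not_subset] at hx'
        obtain ⟨y, hy, hyU⟩ := hx'
        exact ⟨x.2, V x, hV1 x, y, hy, y, hyU, rfl⟩
      · rintro ⟨-, V', hV', y, hy, z, hz, rfl⟩ hsub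
        rw [hV2 x V' hV'] at hy
        exact hz ((show (Subtype.val ⁻¹' (V x) : Set M) ⊆ U from hsub) hy)
    · intro F hF
      obtain ⟨U, hU, hUF⟩ := isOpen_induced_iff.1 hF.isOpen_compl
      have h := (hMiss L Ω Z U hU).preimage (continuous_subtype_val (p := (· ∈ MSet Z.lt Z.E)))
      suffices hs : ({x : M | (f x : Set M) ⊆ F} : Set M) = Subtype.val ⁻¹'
          {x : Amb L Ω | x ∈ MSet Z.lt Z.E ∧ ∃ V, IsVal Z x V ∧ V ∩ U = ∅} by rw [hs]; exact h
      refine Set.ext fun x => ?_
      constructor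
      · intro hx
        refine ⟨x.2, V x, hV1 x, ?_⟩
        rw [eq_empty_iff_forall_notMem]
        rintro y ⟨hy, hyU⟩
        have hyM := (hVne L Ω Z x (V x) (hV1 x)).2.2 hy
        have h1 : (⟨y, hyM⟩ : M) ∈ F := (show (Subtype.val ⁻¹' (V x) : Set M) ⊆ F from hx) hy
        have h2 : (⟨y, hyM⟩ : M) ∈ Fᶜ := by rw [← hUF]; exact hyU
        exact h2 h1
      · rintro ⟨-, V', hV', hem⟩ y hy
        rw [hV2 x V' hV'] at hem
        by_contra hyF
        have h2 : y ∈ (Fᶜ : Set M) := hyF
        rw [← hUF] at h2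
        have : (y : Amb L Ω) ∈ V x ∩ U := ⟨hy, h2⟩
        rw [hem] at this
        exact this
  have hyp1 : ∀ A B : Set M, IsClosed A → IsConnected A → IsClosed B → IsConnected B →
      IsPreconnected (A ∩ B) := by
    intro A B hA hAc hB hBc
    have h := hHU L Ω Z.lt Z.E Z.E_closed (Subtype.val '' A) (Subtype.val '' B) (hsub A) (hsub B)
      (hce.isClosedMap _ hA) (hAc.image _ continuous_subtype_val.continuousOn)
      (hce.isClosedMap _ hB) (hBc.image _ continuous_subtype_val.continuousOn)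
    rw [← image_inter Subtype.val_injective] at h
    exact hind.isPreconnected_image.1 h
  have hyp2 : ∀ K : Set M, IsClosed K → IsConnected K → K.Nontrivial →
      ∃ A B : Set M, IsClosed A ∧ IsConnected A ∧ IsClosed B ∧ IsConnected B ∧
        A ⊂ K ∧ B ⊂ K ∧ A ∪ B = K := by
    intro K hK hKc hKn
    obtain ⟨A, B, hA, hAc, hB, hBc, hAK, hBK, hAB⟩ := hHD L Ω Z.lt Z.E Z.E_closed
      (Subtype.val '' K) (hsub K) (hce.isClosedMap _ hK)
      (hKc.image _ continuous_subtype_val.continuousOn) (hKn.image Subtype.val_injective)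
    have key : ∀ A : Set (Amb L Ω), A ⊆ Subtype.val '' K →
        Subtype.val '' (Subtype.val ⁻¹' A : Set M) = A := by
      intro A hA
      rw [Subtype.image_preimage_coe]
      exact inter_eq_right.2 (hA.trans (hsub K))
    have hpre : (Subtype.val ⁻¹' (Subtype.val '' K) : Set M) = K :=
      preimage_image_eq K Subtype.val_injective
    have hconn' : ∀ A : Set (Amb L Ω), A ⊆ Subtype.val '' K → IsConnected A →
        IsConnected (Subtype.val ⁻¹' A : Set M) := by
      intro A hA hAc
      have h1 := key A hA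
      refine ⟨?_, ?_⟩
      · rw [← image_nonempty (f := Subtype.val), h1]; exact hAc.nonempty
      · rw [← hind.isPreconnected_image, h1]; exact hAc.isPreconnected
    have hss : ∀ A : Set (Amb L Ω), A ⊂ Subtype.val '' K → (Subtype.val ⁻¹' A : Set M) ⊂ K := by
      intro A hA
      refine ⟨?_, ?_⟩
      · rw [← hpre]; exact preimage_mono hA.1
      · intro hc
        apply hA.2
        rw [← key A hA.1]
        exact image_mono hc
    refine ⟨Subtype.val ⁻¹' A, Subtype.val ⁻¹' B, hA.preimage continuous_subtype_val,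
      hconn' A hAK.1 hAc, hB.preimage continuous_subtype_val, hconn' B hBK.1 hBc,
      hss A hAK, hss B hBK, ?_⟩
    rw [← preimage_union, hAB, hpre]
  obtain ⟨x, hx⟩ := H M hyp1 hyp2 f hf
  exact hNF L Ω Z x (V x) (hV1 x) hx

/-- The concrete system. -/
noncomputable def mkSys (u : ℕ → Fin 3) (hu : GoodWord u) (hES : StmtES) (hMM : StmtMatMain)
    (hMA : StmtMatAux) (h1 : StmtC1) (h2 : StmtC2) (h2s : StmtC2s) (h3 : StmtC3) (h4 : StmtC4)
    (h5 : StmtC5) (h6 : StmtC6) (hne : StmtSne) (htail : StmtStail) : Sys Lab Om where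
  E := ES
  lt := ltr u
  bl := blk u
  S := SS
  E_closed := hES.1
  E_ne := hES.2.1
  S_sub := fun n a _ _ e he => he.1
  S_ne := hne
  S_tail := fun n a a' _ _ _ h => htail n a a' h
  b1 := by
    intro n ω j l _ h
    subst h
    rcases l with τ | ⟨κ, t⟩
    · simp [ltr, blk]
    · simp [ltr, blk]
  b2 := by
    intro n ω j l h
    rcases ω with ε | ⟨κ, τ, r⟩ <;> rcases l with σ | ⟨κ', t⟩
    · exact h
    · exact h
    · exact h
    · obtain ⟨h1, h2⟩ := h
      refine ⟨h1, ?_⟩
      rcases h2 with h2 | h2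
      · exact absurd h2 (by simp)
      · exact Or.inr h2
  b3 := by
    intro n ω j l hj h
    rcases ω with ε | ⟨κ, τ, r⟩ <;> rcases l with σ | ⟨κ', t⟩
    · exact h
    · exact h
    · exact h
    · obtain ⟨h1, h2⟩ := h
      refine ⟨h1, ?_⟩
      rcases h2 with h2 | h2
      · exact absurd (Nat.cast_le.1 h2) (not_le.2 hj)
      · exact Or.inr h2
  mat := by
    intro n a hn ha
    rcases h : a n with τ | q
    · have := hMM u n a hn ha ⟨τ, h⟩
      rwa [h] at this
    · have := hMA u hu n a hn ha ⟨q, h⟩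
      rwa [h] at this
  c1 := h1
  c2 := h2
  c2s := h2s u
  c3 := h3 u
  c4 := h4 u
  c5 := h5
  c6 := h6

end Pool.Agent.Helper56.LD
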